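import Pool.Agent.helper88.RQ2.Spec

set_option autoImplicit false

open Set Matroid RadonMin

namespace RadonQ2

theorem KE2_proof (hEB : EB_stmt) (hV1 : V1_stmt) (hV2 : V2_stmt) : KE2_stmt := by
  intro V _ _ _ B hB
  have hTT : ∀ n r : ℤ, TT 2 n r = n - r := by
    intro n r
    have e1 : ((2 : ℕ).choose 2 : ℤ) = 1 := by decide
    have e2 : ((2 + 1 : ℕ).choose 3 : ℤ) = 1 := by decide
    rw [TT, e1, e2, one_mul, one_mul]
  rw [hTT]
  obtain ⟨-, -, -, hle, -, hpos, -⟩ := hEB V
  rcases hB with h | h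
  · obtain ⟨x, rfl⟩ := Finset.card_eq_one.1 h
    have h1 : ci ({x} : Finset V) = 0 := by
      rw [hV1 V {x} (by simpa using collinear_singleton ℝ x), Finset.card_singleton]
      decide
    have h2 : ra ({x} : Finset V) = 1 :=
      le_antisymm (by simpa using hle {x}) (hpos _ (Finset.singleton_nonempty x))
    rw [h1, h2, Finset.card_singleton]
    norm_num
  · obtain ⟨h1, h2⟩ := hV2 V B h
    rw [h1, h2]
    push_cast
    ring

end RadonQ2
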